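import Mathlib
import Pool.Agent.W842.KF.Stm

set_option autoImplicit false

namespace Pool.Agent.W240.KF

open Finset Pool.Agent.W842.KF

lemma nb_mono {V : Type} [Fintype V] {G H : SimpleGraph V} (h : G ≤ H) (v : V) :
    nb G v ⊆ nb H v := by
  intro u hu
  rw [mem_nb] at hu ⊢
  exact h hu

theorem t_level : S_CUT → S_FLIP → S_KEMPE → S_LEVEL := by
  intro hcut hflip hkem V _ Γ c σ K q φ a hK hcol hσ hnb hcK hφ ha hsum
  have hkey : ∀ u v, Γ.Adj u v → key σ (c u v) < K := fun u v h =>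
    lt_of_le_of_lt (min_le_left _ _) (hcK u v h)
  obtain ⟨M, hM, hM15, hMc⟩ := hcut V Γ c σ K hK hcol hσ hnb hkey
  have hle : Γ \ M ≤ Γ := sdiff_le
  have hcol' : Col (Γ \ M) c :=
    ⟨hcol.1, fun u v w huv huw hne => hcol.2 u v w (hle huv) (hle huw) hne⟩
  have hK1 : (1 : ℝ) < K := by
    have : (64 : ℝ) ≤ K := by exact_mod_cast hK
    linarith
  have hK0 : (0 : ℝ) < K := by linarith
  have hlog : 0 < Real.log K := Real.log_pos hK1
  have hexp : Real.exp (-(5 * Real.log K)) = 1 / (K : ℝ) ^ 5 := by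
    rw [Real.exp_neg, one_div]
    congr 1
    rw [show (5 : ℝ) * Real.log K = ((5 : ℕ) : ℝ) * Real.log K by norm_num, Real.exp_nat_mul,
      Real.exp_log hK0]
  have hL : 1 ≤ 3 * K ^ 3 := by
    have : 1 ≤ K ^ 3 := Nat.one_le_pow _ _ (by omega)
    omega
  have hbd : 4 * Real.exp (-(5 * Real.log K)) * ((K * (3 * K ^ 3) : ℕ) : ℝ) ≤ 1 := by
    rw [hexp]
    push_cast
    have h64 : (64 : ℝ) ≤ K := by exact_mod_cast hK
    rw [mul_one_div, div_mul_eq_mul_div, div_le_one (by positivity)]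
    have h4 : (0 : ℝ) < (K : ℝ) ^ 4 := by positivity
    nlinarith [mul_le_mul_of_nonneg_right h64 h4.le]
  obtain ⟨b, hb1, hb2, hb3⟩ := hflip V (Γ \ M) c σ K (3 * K ^ 3) q φ (5 * Real.log K) a hcol' hσ
    (fun u v h => hkey u v (hle h)) hMc ha
    (fun v => le_trans (Finset.sum_le_sum_of_subset_of_nonneg (nb_mono hle v)
      (fun i _ _ => by positivity)) (hsum v)) hφ (by positivity) (by omega) hL hbd
  exact ⟨M, b, hM, hM15, hkem V (Γ \ M) c σ b hcol' hσ hb1 hb2, hb3⟩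

end Pool.Agent.W240.KF
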